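import Pool.Agent.P.MP_4cda3b_an.Sums

/-!
# Spheres of admissible index sets

`UU` is the family of admissible sets with `kk j + 1` points in each block `j ∈ [j0, j1)`, and
`FF j` the family with one point less in the block `j`.
-/

set_option autoImplicit false

namespace Pool.Agent.P.MP_4cda3b_an

open Finset

/-- The number of points used in the block `j`. -/
def kk (j : ℕ) : ℕ := 2 ^ j / (4 * ss j)

/-- The number of points of `A` in the block `j`. -/
def cnt (A : Finset ℕ) (j : ℕ) : ℕ := #(A.filter (fun n => blk n = j))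

/-- Indices of the block `j` that can be added to `A`. -/
def Free (A : Finset ℕ) (j : ℕ) : Finset ℕ :=
  (Ico (2 ^ j + ss j) (2 ^ (j + 1))).filter
    (fun n => ∀ m ∈ A, blk m = j → m + ss j ≤ n ∨ n + ss j ≤ m)

open Classical in
/-- The upper sphere. -/
noncomputable def UU (j0 j1 : ℕ) : Finset (Finset ℕ) :=
  (range (2 ^ j1)).powerset.filter
    (fun A => Adm j0 A ∧ ∀ j ∈ Ico j0 j1, cnt A j = kk j + 1)

open Classical in
/-- The lower sphere in the direction of the block `j`. -/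
noncomputable def FF (j0 j1 j : ℕ) : Finset (Finset ℕ) :=
  (range (2 ^ j1)).powerset.filter
    (fun A => Adm j0 A ∧ cnt A j = kk j ∧ ∀ i ∈ Ico j0 j1, i ≠ j → cnt A i = kk i + 1)

lemma free_card {A : Finset ℕ} {j : ℕ} (hs : 4 * ss j ≤ 2 ^ j) (hc : cnt A j ≤ kk j) :
    2 ^ j ≤ 4 * #(Free A j) := by
  have hsub : Ico (2 ^ j + ss j) (2 ^ (j + 1)) ⊆
      Free A j ∪ (A.filter (fun n => blk n = j)).biUnion
        (fun m => Ico (m - ss j) (m + ss j)) := by
    intro n hn
    by_cases h : ∀ m ∈ A, blk m = j → m + ss j ≤ n ∨ n + ss j ≤ m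
    · exact mem_union_left _ (mem_filter.2 ⟨hn, h⟩)
    · push Not at h
      obtain ⟨m, hm, hb, h1, h2⟩ := h
      refine mem_union_right _ (mem_biUnion.2 ⟨m, mem_filter.2 ⟨hm, hb⟩, ?_⟩)
      rw [mem_Ico]; omega
  have h1 := card_le_card hsub
  have h2 := card_union_le (Free A j) ((A.filter (fun n => blk n = j)).biUnion
        (fun m => Ico (m - ss j) (m + ss j)))
  have h3 : #((A.filter (fun n => blk n = j)).biUnion (fun m => Ico (m - ss j) (m + ss j)))
      ≤ cnt A j * (2 * ss j) := by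
    apply card_biUnion_le_card_mul
    intro m _
    rw [Nat.card_Ico]; omega
  have h4 : kk j * (4 * ss j) ≤ 2 ^ j := Nat.div_mul_le_self _ _
  have h5 : cnt A j * (2 * ss j) ≤ kk j * (2 * ss j) := Nat.mul_le_mul_right _ hc
  rw [Nat.card_Ico, pow_succ] at h1
  have h6 : kk j * (4 * ss j) = 2 * (kk j * (2 * ss j)) := by ring
  omega

lemma free_blk {A : Finset ℕ} {j n : ℕ} (hn : n ∈ Free A j) : blk n = j := by
  have h := mem_Ico.1 (mem_filter.1 hn).1
  exact blk_eq (by omega) h.2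

lemma free_lt {A : Finset ℕ} {j n : ℕ} (hn : n ∈ Free A j) : n < 2 ^ (j + 1) :=
  (mem_Ico.1 (mem_filter.1 hn).1).2

lemma free_notMem {A : Finset ℕ} {j n : ℕ} (hn : n ∈ Free A j) : n ∉ A := by
  intro hA
  have h1 := (mem_filter.1 hn).2 n hA (free_blk hn)
  have h2 := ss_pos j
  omega

lemma Adm.insert_free {j0 j n : ℕ} {A : Finset ℕ} (hA : Adm j0 A) (hj : j0 ≤ j)
    (hn : n ∈ Free A j) : Adm j0 (insert n A) := by
  have hb := free_blk hn
  have h1 := mem_Ico.1 (mem_filter.1 hn).1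
  have h2 := (mem_filter.1 hn).2
  have hsp := ss_pos j
  constructor
  · intro m hm
    rcases mem_insert.1 hm with rfl | hm
    · rw [hb]; exact ⟨hj, h1.1⟩
    · exact hA.1 m hm
  · intro p hp q hq hpq
    rcases mem_insert.1 hp with rfl | hp'
    · rcases mem_insert.1 hq with rfl | hq'
      · omega
      · by_cases hbq : blk q = j
        · have := h2 q hq' hbq
          rw [hbq]; omega
        · have h3 : blk p ≤ blk q := blk_mono hpq.le
          have h4 : 2 ^ (j + 1) ≤ 2 ^ blk q := Nat.pow_le_pow_right (by norm_num) (by omega)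
          have h5 := (hA.1 q hq').2
          omega
    · rcases mem_insert.1 hq with rfl | hq'
      · rw [hb]
        by_cases hbp : blk p = j
        · have := h2 p hp' hbp
          omega
        · have h3 : blk p ≤ blk q := blk_mono hpq.le
          have h4 : 2 ^ (blk p + 1) ≤ 2 ^ j := Nat.pow_le_pow_right (by norm_num) (by omega)
          have h5 := lt_pow_blk p
          omega
      · exact hA.2 p hp' q hq' hpq

lemma cnt_insert {A : Finset ℕ} {n : ℕ} (hn : n ∉ A) (i : ℕ) :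
    cnt (insert n A) i = cnt A i + if blk n = i then 1 else 0 := by
  unfold cnt
  rw [filter_insert]
  split_ifs with h
  · rw [card_insert_of_notMem]
    intro hh
    exact hn (mem_filter.1 hh).1
  · rfl

lemma insert_subset_range {j1 j n : ℕ} {A : Finset ℕ} (hA : A ⊆ range (2 ^ j1)) (hj : j < j1)
    (hn : n ∈ Free A j) : insert n A ⊆ range (2 ^ j1) := by
  refine insert_subset ?_ hA
  have h1 := free_lt hn
  have h2 : 2 ^ (j + 1) ≤ 2 ^ j1 := Nat.pow_le_pow_right (by norm_num) hj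
  rw [mem_range]; omega

lemma insert_mem_UU {j0 j1 j n : ℕ} {A : Finset ℕ} (hj : j ∈ Ico j0 j1) (hA : A ∈ FF j0 j1 j)
    (hn : n ∈ Free A j) : insert n A ∈ UU j0 j1 := by
  classical
  unfold FF at hA
  unfold UU
  rw [mem_filter, mem_powerset] at hA ⊢
  obtain ⟨h1, h2, h3, h4⟩ := hA
  have hj' := mem_Ico.1 hj
  refine ⟨insert_subset_range h1 hj'.2 hn, h2.insert_free hj'.1 hn, fun i hi => ?_⟩
  rw [cnt_insert (free_notMem hn), free_blk hn]
  split_ifs with h
  · subst h; rw [h3]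
  · rw [h4 i hi (Ne.symm h)]

lemma UU_nonempty {j0 j1 : ℕ} (hs : ∀ j, j0 ≤ j → 4 * ss j ≤ 2 ^ j) : (UU j0 j1).Nonempty := by
  classical
  set V : Finset (Finset ℕ) := (range (2 ^ j1)).powerset.filter
    (fun A => Adm j0 A ∧ ∀ j ∈ Ico j0 j1, cnt A j ≤ kk j + 1) with hV
  have hne : V.Nonempty := by
    refine ⟨∅, ?_⟩
    rw [hV, mem_filter]
    refine ⟨by simp, ⟨by simp, by simp⟩, fun j _ => by simp [cnt]⟩
  obtain ⟨A, hA, hmax⟩ := exists_max_image V card hne
  rw [hV, mem_filter, mem_powerset] at hA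
  obtain ⟨h1, h2, h3⟩ := hA
  refine ⟨A, ?_⟩
  unfold UU
  rw [mem_filter, mem_powerset]
  refine ⟨h1, h2, fun j hj => ?_⟩
  by_contra hc
  have hj' := mem_Ico.1 hj
  have h4 : cnt A j ≤ kk j := by have := h3 j hj; omega
  have h5 := free_card (hs j hj'.1) h4
  have h6 : (Free A j).Nonempty := by
    rw [← card_pos]
    have : 0 < 2 ^ j := by positivity
    omega
  obtain ⟨n, hn⟩ := h6
  have h7 : insert n A ∈ V := by
    rw [hV, mem_filter, mem_powerset]
    refine ⟨insert_subset_range h1 hj'.2 hn, h2.insert_free hj'.1 hn, fun i hi => ?_⟩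
    rw [cnt_insert (free_notMem hn), free_blk hn]
    split_ifs with h
    · subst h; omega
    · exact h3 i hi
  have h8 := hmax _ h7
  rw [card_insert_of_notMem (free_notMem hn)] at h8
  omega

lemma double_count {j0 j1 j : ℕ} (hj : j ∈ Ico j0 j1) :
    #(UU j0 j1) * (kk j + 1) ≤ #(FF j0 j1 j) * 2 ^ j := by
  classical
  apply card_mul_le_card_mul (fun B A => ∃ n, blk n = j ∧ 0 < n ∧ n ∉ A ∧ B = insert n A)
  · intro B hB
    unfold UU at hB
    rw [mem_filter, mem_powerset] at hB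
    obtain ⟨h1, h2, h3⟩ := hB
    rw [← h3 j hj]
    unfold cnt
    apply card_le_card_of_injOn (fun n => B.erase n)
    · intro n hn
      rw [coe_filter] at hn
      obtain ⟨hnB, hnb⟩ := hn
      have hcnt : ∀ i, cnt B i = cnt (B.erase n) i + if blk n = i then 1 else 0 := by
        intro i
        rw [← cnt_insert (notMem_erase n B), insert_erase hnB]
      simp only [bipartiteAbove, coe_filter, Set.mem_ofPred_eq]
      refine ⟨?_, n, hnb, ?_, notMem_erase n B, (insert_erase hnB).symm⟩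
      · unfold FF
        rw [mem_filter, mem_powerset]
        refine ⟨(erase_subset n B).trans h1, h2.subset (erase_subset n B), ?_, fun i hi hij => ?_⟩
        · have := hcnt j
          rw [if_pos hnb, h3 j hj] at this
          omega
        · have := hcnt i
          rw [if_neg (by rw [hnb]; exact Ne.symm hij), h3 i hi] at this
          omega
      · have := h2.pow_le hnB
        have h0 : 0 < 2 ^ j0 := by positivity
        omega
    · intro n hn m hm hnm
      rw [coe_filter] at hn hm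
      exact erase_injOn B hn.1 hm.1 hnm
  · intro A _
    have hsub : (UU j0 j1).bipartiteBelow
        (fun B A => ∃ n, blk n = j ∧ 0 < n ∧ n ∉ A ∧ B = insert n A) A ⊆
        (Ico (2 ^ j) (2 ^ (j + 1))).image (fun n => insert n A) := by
      intro B hB
      simp only [bipartiteBelow, mem_filter] at hB
      obtain ⟨_, n, h1, h2, _, h4⟩ := hB
      refine mem_image.2 ⟨n, ?_, h4.symm⟩
      rw [mem_Ico, ← h1]
      exact ⟨Nat.pow_log_le_self 2 (by omega), lt_pow_blk n⟩
    refine (card_le_card hsub).trans (card_image_le.trans ?_)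
    rw [Nat.card_Ico, pow_succ]; omega

lemma card_UU_le {j0 j1 j : ℕ} (hj : j ∈ Ico j0 j1) :
    #(UU j0 j1) ≤ 4 * ss j * #(FF j0 j1 j) := by
  have h1 := double_count hj
  have hs := ss_pos j
  have h2 : 2 ^ j < 4 * ss j * (kk j + 1) := Nat.lt_mul_div_succ _ (by omega)
  have h3 : #(UU j0 j1) * (kk j + 1) ≤ (4 * ss j * #(FF j0 j1 j)) * (kk j + 1) := by
    calc #(UU j0 j1) * (kk j + 1) ≤ #(FF j0 j1 j) * 2 ^ j := h1
      _ ≤ #(FF j0 j1 j) * (4 * ss j * (kk j + 1)) := Nat.mul_le_mul_left _ h2.le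
      _ = (4 * ss j * #(FF j0 j1 j)) * (kk j + 1) := by ring
  exact Nat.le_of_mul_le_mul_right h3 (by omega)

lemma FF_disjoint {j0 j1 : ℕ} : ((Ico j0 j1 : Finset ℕ) : Set ℕ).PairwiseDisjoint (FF j0 j1) := by
  classical
  intro i hi j _ hij
  rw [Function.onFun, disjoint_left]
  intro A h1 h2
  unfold FF at h1 h2
  rw [mem_filter] at h1 h2
  have h3 := h1.2.2.1
  have h4 := h2.2.2.2 i (by exact_mod_cast hi) hij
  omega

lemma four_ss_le {j : ℕ} (hj : 12 ≤ j) : 4 * ss j ≤ 2 ^ j := by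
  have h0 : 8 * j * (j + 3) ≤ 2 ^ j := by
    induction j, hj using Nat.le_induction with
    | base => norm_num
    | succ j hj ih => rw [pow_succ]; nlinarith
  have h1 : 2 ^ Nat.log 2 j ≤ j := Nat.pow_log_le_self 2 (by omega)
  have h2 : Nat.log 2 j ≤ j := Nat.log_le_self 2 j
  unfold ss KK
  calc 4 * (2 ^ (Nat.log 2 j + 1) * (Nat.log 2 j + 3))
      = 8 * 2 ^ Nat.log 2 j * (Nat.log 2 j + 3) := by ring
    _ ≤ 8 * j * (j + 3) := Nat.mul_le_mul (Nat.mul_le_mul_left _ h1) (by omega)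
    _ ≤ 2 ^ j := h0

lemma sum_group (t : ℕ) :
    ∑ j ∈ Ico (2 ^ t) (2 ^ (t + 1)), (1 : ℝ) / (4 * ss j) = 1 / (8 * (t + 3)) := by
  have h : ∀ j ∈ Ico (2 ^ t) (2 ^ (t + 1)), (1 : ℝ) / (4 * ss j)
      = 1 / (4 * (2 ^ (t + 1) * (t + 3))) := by
    intro j hj
    rw [mem_Ico] at hj
    have : Nat.log 2 j = t := Nat.log_eq_of_pow_le_of_lt_pow hj.1 hj.2
    unfold ss KK
    rw [this]; push_cast; ring
  rw [sum_congr rfl h, sum_const, Nat.card_Ico, nsmul_eq_mul]
  have : 2 ^ (t + 1) - 2 ^ t = 2 ^ t := by rw [pow_succ]; omega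
  rw [this]; push_cast
  field_simp
  ring

lemma sum_groups (t0 r : ℕ) :
    ∑ j ∈ Ico (2 ^ t0) (2 ^ (t0 + r)), (1 : ℝ) / (4 * ss j)
      = ∑ i ∈ range r, 1 / (8 * (((t0 + i : ℕ) : ℝ) + 3)) := by
  induction r with
  | zero => simp
  | succ r ih =>
    rw [sum_range_succ, ← ih, ← sum_group (t0 + r), ← add_assoc]
    symm
    apply sum_Ico_consecutive
    · exact Nat.pow_le_pow_right (by norm_num) (by omega)
    · exact Nat.pow_le_pow_right (by norm_num) (by omega)

lemma exists_sum_ge (t0 : ℕ) (L : ℝ) :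
    ∃ j1, L ≤ ∑ j ∈ Ico (2 ^ t0) j1, (1 : ℝ) / (4 * ss j) := by
  have h := Real.tendsto_sum_range_one_div_nat_succ_atTop
  obtain ⟨r, hr⟩ := (h.eventually_ge_atTop (8 * (t0 + 3) * L)).exists
  refine ⟨2 ^ (t0 + r), ?_⟩
  rw [sum_groups]
  have h1 : ∑ i ∈ range r, (1 / (i + 1) : ℝ)
      ≤ 8 * (t0 + 3) * ∑ i ∈ range r, (1 : ℝ) / (8 * (((t0 + i : ℕ) : ℝ) + 3)) := by
    rw [mul_sum]
    apply sum_le_sum
    intro i _
    push_cast
    have hi : (0 : ℝ) ≤ i := by positivity
    have ht : (0 : ℝ) ≤ t0 := by positivity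
    rw [mul_one_div, div_le_div_iff₀ (by positivity) (by positivity)]
    nlinarith [mul_nonneg hi ht]
  have h2 : (0 : ℝ) < 8 * (t0 + 3) := by positivity
  exact le_of_mul_le_mul_left (hr.trans h1) h2

/-- The combinatorial core: the maximal operator is not of weak type on finite sets of integers. -/
theorem exists_sets {a : ℕ → ℕ} {j0 : ℕ} (h : Grow a j0) (hpos : ∀ n, 0 < a n) (L M : ℕ) :
    ∃ U F : Finset ℕ, U.Nonempty ∧ L * #U ≤ #F ∧
      ∀ y ∈ F, ∃ N, M ≤ N ∧ N ≤ 8 * #((range N).filter (fun n => y + a n ∈ U)) := by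
  classical
  obtain ⟨j2, hlt, j1, hj1⟩ : ∃ j2, j0 + M + 12 < j2 ∧
      ∃ j1, (L : ℝ) ≤ ∑ j ∈ Ico j2 j1, (1 : ℝ) / (4 * ss j) :=
    ⟨2 ^ (j0 + M + 12), Nat.lt_pow_self (by norm_num), exists_sum_ge _ _⟩
  have hg : Grow a j2 := fun n hn =>
    h n ((Nat.pow_le_pow_right (by norm_num) (by omega)).trans hn)
  have hs : ∀ j, j2 ≤ j → 4 * ss j ≤ 2 ^ j := fun j hj => four_ss_le (by omega)
  set σ : Finset ℕ → ℕ := fun A => ∑ i ∈ A, a i with hσ
  refine ⟨(UU j2 j1).image σ, ((Ico j2 j1).biUnion (FF j2 j1)).image σ,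
    (UU_nonempty hs).image σ, ?_, ?_⟩
  · have hF : #(((Ico j2 j1).biUnion (FF j2 j1)).image σ) = ∑ j ∈ Ico j2 j1, #(FF j2 j1 j) := by
      rw [card_image_of_injOn, card_biUnion FF_disjoint]
      intro A hA B hB hAB
      rw [mem_coe, mem_biUnion] at hA hB
      obtain ⟨i, _, hA⟩ := hA
      obtain ⟨j, _, hB⟩ := hB
      unfold FF at hA hB
      rw [mem_filter] at hA hB
      exact hg.sum_inj hpos hA.2.1 hB.2.1 hAB
    have hU : #((UU j2 j1).image σ) ≤ #(UU j2 j1) := card_image_le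
    have h1 : (L : ℝ) * #(UU j2 j1) ≤ ∑ j ∈ Ico j2 j1, (#(FF j2 j1 j) : ℝ) := by
      calc (L : ℝ) * #(UU j2 j1)
          ≤ (∑ j ∈ Ico j2 j1, (1 : ℝ) / (4 * ss j)) * #(UU j2 j1) :=
            mul_le_mul_of_nonneg_right hj1 (by positivity)
        _ = ∑ j ∈ Ico j2 j1, (1 : ℝ) / (4 * ss j) * #(UU j2 j1) := by rw [sum_mul]
        _ ≤ _ := by
          apply sum_le_sum
          intro j hj
          have h2 : (#(UU j2 j1) : ℝ) ≤ 4 * ss j * #(FF j2 j1 j) := by
            exact_mod_cast card_UU_le hj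
          have h3 : (0 : ℝ) < 4 * ss j := by
            have := ss_pos j
            positivity
          rw [one_div, inv_mul_le_iff₀ h3]
          exact h2
    have h2 : L * #(UU j2 j1) ≤ ∑ j ∈ Ico j2 j1, #(FF j2 j1 j) := by exact_mod_cast h1
    rw [hF]
    exact (Nat.mul_le_mul_left _ hU).trans h2
  · intro y hy
    obtain ⟨A, hA, rfl⟩ := mem_image.1 hy
    obtain ⟨j, hj, hA⟩ := mem_biUnion.1 hA
    have hj' := mem_Ico.1 hj
    refine ⟨2 ^ (j + 1), ?_, ?_⟩
    · have : j + 1 < 2 ^ (j + 1) := Nat.lt_pow_self (by norm_num)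
      omega
    · have hc : cnt A j ≤ kk j := by
        unfold FF at hA
        rw [mem_filter] at hA
        exact hA.2.2.1.le
      have h1 := free_card (hs j hj'.1) hc
      have h2 : Free A j ⊆ (range (2 ^ (j + 1))).filter
          (fun n => σ A + a n ∈ (UU j2 j1).image σ) := by
        intro n hn
        refine mem_filter.2 ⟨mem_range.2 (free_lt hn), mem_image.2
          ⟨insert n A, insert_mem_UU hj hA hn, ?_⟩⟩
        simp only [hσ]
        rw [sum_insert (free_notMem hn), add_comm]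
      have h3 := card_le_card h2
      rw [pow_succ] at *
      omega

end Pool.Agent.P.MP_4cda3b_an
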