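import Mathlib

/-!
# From finite sets of integers to a Bernoulli system

If the maximal operator along `a` maps indicators of finite sets `U` to functions that are at
least `1/8` on sets `F` with `#F / #U` unbounded, then the averages along `a` of the indicator
of a suitable set in the Bernoulli shift on `[0,1]^ℤ` do not converge almost everywhere.
-/

set_option autoImplicit false

namespace Pool.Agent.P.MP_4cda3b_an

open Finset MeasureTheory Filter
open scoped ENNReal

/-- The product of countably many copies of the unit interval. -/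
abbrev Om : Type := ℤ → unitInterval

/-- The product of the Lebesgue measures. -/
noncomputable def mu : Measure Om :=
  Measure.infinitePi (fun _ : ℤ => (volume : Measure unitInterval))

instance : IsProbabilityMeasure mu := by
  unfold mu; infer_instance

/-- The shift. -/
def shift (x : Om) : Om := fun i => x (i + 1)

lemma shift_iterate (n : ℕ) (x : Om) (i : ℤ) : (shift^[n] x) i = x (i + n) := by
  induction n generalizing x i with
  | zero => simp
  | succ n ih =>
    rw [Function.iterate_succ_apply', shift, ih]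
    congr 1
    push_cast; ring

lemma measurable_shift : Measurable shift :=
  measurable_pi_lambda _ (fun i => measurable_pi_apply (i + 1))

lemma measurePreserving_shift : MeasurePreserving shift mu mu := by
  classical
  refine ⟨measurable_shift, ?_⟩
  unfold mu
  refine Measure.eq_infinitePi _ (fun s t ht => ?_)
  rw [Measure.map_apply measurable_shift (.pi s.countable_toSet fun _ _ => ht _)]
  have h : shift ⁻¹' ((s : Set ℤ).pi t) =
      ((s.image (fun i => i + 1) : Finset ℤ) : Set ℤ).pi (fun i => t (i - 1)) := by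
    ext x
    simp only [shift, Set.mem_pi, Set.mem_preimage, coe_image, Set.forall_mem_image,
      add_sub_cancel_right]
  rw [h, Measure.infinitePi_pi _ (fun i _ => ht _), prod_image]
  · simp
  · intro i _ j _ hij
    simpa using hij

/-- The set of points with a small coordinate at a place `-u`, `u ∈ S`. -/
def hit (S : Finset ℕ) (p : unitInterval) : Set Om := {x | ∃ u ∈ S, x (-(u : ℤ)) < p}

lemma hit_eq (S : Finset ℕ) (p : unitInterval) :
    hit S p = ⋃ u ∈ S, (fun x : Om => x (-(u : ℤ))) ⁻¹' Set.Iio p := by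
  ext x; simp [hit]

lemma measurableSet_hit (S : Finset ℕ) (p : unitInterval) : MeasurableSet (hit S p) := by
  rw [hit_eq]
  exact S.measurableSet_biUnion (fun u _ => measurable_pi_apply _ measurableSet_Iio)

lemma measure_hit_le (S : Finset ℕ) (p : unitInterval) :
    mu (hit S p) ≤ #S * ENNReal.ofReal p := by
  rw [hit_eq]
  refine (measure_biUnion_finset_le _ _).trans ?_
  have h : ∀ u ∈ S, mu ((fun x : Om => x (-(u : ℤ))) ⁻¹' Set.Iio p) = ENNReal.ofReal p := by
    intro u _
    have h1 := (measurePreserving_eval_infinitePi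
      (fun _ : ℤ => (volume : Measure unitInterval)) (-(u : ℤ))).measure_preimage
      (s := Set.Iio p) measurableSet_Iio.nullMeasurableSet
    rw [unitInterval.volume_Iio] at h1
    exact h1
  rw [sum_congr rfl h, sum_const, nsmul_eq_mul]

lemma measure_compl_hit (S : Finset ℕ) (p : unitInterval) :
    mu (hit S p)ᶜ = ENNReal.ofReal (1 - p) ^ #S := by
  classical
  have h : (hit S p)ᶜ =
      ((S.image (fun u : ℕ => -(u : ℤ)) : Finset ℤ) : Set ℤ).pi (fun _ => Set.Ici p) := by
    ext x
    simp [hit, Set.mem_pi]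
  rw [h]
  unfold mu
  rw [Measure.infinitePi_pi _ (fun i _ => measurableSet_Ici), prod_const, card_image_of_injective,
    unitInterval.volume_Ici]
  intro i j hij
  simpa using hij

lemma one_sub_pow_le (n : ℕ) (hn : 0 < n) : (1 - 1 / (n : ℝ)) ^ n ≤ 1 / 2 := by
  have hn' : (1 : ℝ) ≤ n := by exact_mod_cast hn
  have h0 : (0 : ℝ) ≤ 1 / n := by positivity
  have h1 : (1 : ℝ) / n ≤ 1 := by rw [div_le_one (by linarith)]; exact hn'
  have h2 : 1 + n * (1 / (n : ℝ)) ≤ (1 + 1 / n) ^ n := one_add_mul_le_pow (by linarith) n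
  have h3 : (n : ℝ) * (1 / n) = 1 := by field_simp
  rw [h3] at h2
  have h4 : (1 - 1 / (n : ℝ)) ^ n * (1 + 1 / n) ^ n ≤ 1 := by
    rw [← mul_pow]
    apply pow_le_one₀
    · exact mul_nonneg (by linarith) (by linarith)
    · nlinarith
  have h5 : 0 ≤ (1 - 1 / (n : ℝ)) ^ n := pow_nonneg (by linarith) n
  nlinarith

theorem bad_of_sets (a : ℕ → ℕ)
    (h : ∀ L M : ℕ, ∃ U F : Finset ℕ, U.Nonempty ∧ L * #U ≤ #F ∧
      ∀ y ∈ F, ∃ N, M ≤ N ∧ N ≤ 8 * #((range N).filter (fun n => y + a n ∈ U))) :
    ∃ E : Set Om, MeasurableSet E ∧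
      ¬ (∀ᵐ x ∂mu, ∃ L : ℝ,
        Tendsto (fun N : ℕ => (1 / (N : ℝ)) * ∑ n ∈ range N,
          E.indicator (fun _ => (1 : ℝ)) (shift^[a n] x)) atTop (nhds L)) := by
  classical
  choose U F hU hF hN using fun m : ℕ => h (2 ^ (m + 8)) (m + 1)
  have hFpos : ∀ m, 0 < #(F m) := fun m =>
    lt_of_lt_of_le (Nat.mul_pos (by positivity) (hU m).card_pos) (hF m)
  have hp : ∀ m, (1 / (#(F m) : ℝ)) ∈ unitInterval := by
    intro m
    have : (1 : ℝ) ≤ #(F m) := by exact_mod_cast hFpos m
    exact ⟨by positivity, by rw [div_le_one (by linarith)]; exact this⟩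
  set p : ℕ → unitInterval := fun m => ⟨_, hp m⟩ with hpdef
  set E : Set Om := ⋃ m, hit (U m) (p m) with hE
  have hEm : MeasurableSet E := MeasurableSet.iUnion (fun m => measurableSet_hit _ _)
  refine ⟨E, hEm, fun hconv => ?_⟩
  set g : ℕ → Om → ℝ := fun N x => (1 / (N : ℝ)) * ∑ n ∈ range N,
          E.indicator (fun _ => (1 : ℝ)) (shift^[a n] x) with hg
  -- the measure of `E` is small
  have hEle : mu E ≤ ENNReal.ofReal (1 / 128) := by
    have h1 : ∀ m, mu (hit (U m) (p m)) ≤ ENNReal.ofReal ((1 / 2) ^ (m + 8)) := by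
      intro m
      refine (measure_hit_le _ _).trans ?_
      rw [← ENNReal.ofReal_natCast, ← ENNReal.ofReal_mul (by positivity)]
      apply ENNReal.ofReal_le_ofReal
      have h2 : (2 : ℝ) ^ (m + 8) * #(U m) ≤ #(F m) := by exact_mod_cast hF m
      have h3 : (0 : ℝ) < #(F m) := by exact_mod_cast hFpos m
      simp only [hpdef]
      rw [mul_one_div, one_div_pow, div_le_div_iff₀ h3 (by positivity)]
      linarith
    refine (measure_iUnion_le _).trans ((ENNReal.tsum_le_tsum h1).trans ?_)
    have h2 : HasSum (fun m : ℕ => ((1 : ℝ) / 2) ^ (m + 8)) (1 / 128) := by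
      have h3 := hasSum_geometric_two.mul_right (((1 : ℝ) / 2) ^ 8)
      have e : (2 : ℝ) * (1 / 2) ^ 8 = 1 / 128 := by norm_num
      rw [e] at h3
      simpa only [pow_add] using h3
    rw [← ENNReal.ofReal_tsum_of_nonneg (fun m => by positivity) h2.summable, h2.tsum_eq]
  have hEreal : mu.real E ≤ 1 / 128 := by
    rw [Measure.real]
    exact ENNReal.toReal_le_of_le_ofReal (by norm_num) hEle
  -- Markov inequality
  have hind : ∀ n : ℕ, (fun x => E.indicator (fun _ => (1 : ℝ)) (shift^[n] x)) =
      (shift^[n] ⁻¹' E).indicator (fun _ => (1 : ℝ)) := by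
    intro n
    ext x
    simp only [Set.indicator, Set.mem_preimage]
  have hint : ∀ n : ℕ, Integrable (fun x => E.indicator (fun _ => (1 : ℝ)) (shift^[n] x)) mu := by
    intro n
    rw [hind]
    exact (integrable_const (1 : ℝ)).indicator (measurable_shift.iterate n hEm)
  have hval : ∀ n : ℕ, ∫ x, E.indicator (fun _ => (1 : ℝ)) (shift^[n] x) ∂mu = mu.real E := by
    intro n
    rw [hind, integral_indicator_const _ (measurable_shift.iterate n hEm), smul_eq_mul, mul_one,
      Measure.real, Measure.real,
      (measurePreserving_shift.iterate n).measure_preimage hEm.nullMeasurableSet]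
  have hmarkov : ∀ N : ℕ, mu {x | 1 / 16 ≤ g (N + 1) x} ≤ ENNReal.ofReal (1 / 8) := by
    intro N
    have h1 : Integrable (g (N + 1)) mu :=
      (integrable_finsetSum _ (fun n _ => hint (a n))).const_mul _
    have h2 : 0 ≤ᵐ[mu] g (N + 1) := by
      refine Eventually.of_forall (fun x => ?_)
      refine mul_nonneg (by positivity) (sum_nonneg (fun n _ => ?_))
      exact Set.indicator_nonneg (fun _ _ => zero_le_one) _
    have h3 := mul_meas_ge_le_integral_of_nonneg h2 h1 (1 / 16)
    have h4 : ∫ x, g (N + 1) x ∂mu = mu.real E := by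
      simp only [hg]
      rw [integral_const_mul, integral_finsetSum _ (fun n _ => hint (a n))]
      simp only [hval, sum_const, card_range, nsmul_eq_mul]
      field_simp
    rw [h4] at h3
    have h5 : mu.real {x | 1 / 16 ≤ g (N + 1) x} ≤ 1 / 8 := by linarith
    rw [← ofReal_measureReal]
    exact ENNReal.ofReal_le_ofReal h5
  -- the two increasing families
  set A : ℕ → Set Om := fun k => {x | ∀ N, k < N → 1 / 16 ≤ g N x} with hA
  set B : ℕ → Set Om := fun k => {x | ∀ N, k < N → g N x < 1 / 8} with hB
  have hAmono : Monotone A := fun k l hkl x hx N hN => hx N (lt_of_le_of_lt hkl hN)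
  have hBmono : Monotone B := fun k l hkl x hx N hN => hx N (lt_of_le_of_lt hkl hN)
  have hAle : mu (⋃ k, A k) ≤ ENNReal.ofReal (1 / 8) := by
    rw [hAmono.measure_iUnion]
    refine iSup_le (fun k => le_trans (measure_mono ?_) (hmarkov k))
    intro x hx
    exact hx (k + 1) (Nat.lt_succ_self k)
  have hBle : mu (⋃ k, B k) ≤ ENNReal.ofReal (1 / 2) := by
    rw [hBmono.measure_iUnion]
    refine iSup_le (fun k => ?_)
    have hsub : B k ⊆ (hit (F k) (p k))ᶜ := by
      rintro x hx ⟨y, hy, hxy⟩
      obtain ⟨N, hN1, hN2⟩ := hN k y hy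
      have h1 := hx N (by omega)
      have h2 : (#((range N).filter (fun n => y + a n ∈ U k)) : ℝ) ≤
          ∑ n ∈ range N, E.indicator (fun _ => (1 : ℝ)) (shift^[a n] x) := by
        rw [card_filter]
        push_cast
        apply sum_le_sum
        intro n _
        split_ifs with hn
        · have : shift^[a n] x ∈ E := by
            refine Set.mem_iUnion.2 ⟨k, y + a n, hn, ?_⟩
            rw [shift_iterate]
            have e : -((y + a n : ℕ) : ℤ) + (a n : ℤ) = -(y : ℤ) := by push_cast; ring
            rw [e]; exact hxy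
          rw [Set.indicator_of_mem this]
        · exact Set.indicator_nonneg (fun _ _ => zero_le_one) _
      have h3 : (N : ℝ) ≤ 8 * #((range N).filter (fun n => y + a n ∈ U k)) := by
        exact_mod_cast hN2
      have h4 : (0 : ℝ) < N := by exact_mod_cast (by omega : 0 < N)
      simp only [hg] at h1
      rw [one_div_mul_eq_div, div_lt_iff₀ h4] at h1
      linarith
    refine (measure_mono hsub).trans ?_
    rw [measure_compl_hit, ← ENNReal.ofReal_pow (sub_nonneg.2 (p k).2.2)]
    exact ENNReal.ofReal_le_ofReal (one_sub_pow_le _ (hFpos k))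
  have hcover : (Set.univ : Set Om) ≤ᵐ[mu] ((⋃ k, A k) ∪ (⋃ k, B k) : Set Om) := by
    filter_upwards [hconv] with x hx
    intro _
    obtain ⟨L, hL⟩ := hx
    rcases lt_or_ge L (1 / 8) with h1 | h1
    · right
      obtain ⟨k, hk⟩ := eventually_atTop.1 (hL.eventually (gt_mem_nhds h1))
      exact Set.mem_iUnion.2 ⟨k, fun N hN => hk N hN.le⟩
    · left
      have h2 : (1 / 16 : ℝ) < L := by linarith
      obtain ⟨k, hk⟩ := eventually_atTop.1 (hL.eventually (lt_mem_nhds h2))
      exact Set.mem_iUnion.2 ⟨k, fun N hN => (hk N hN.le).le⟩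
  have h1 := (measure_mono_ae hcover).trans ((measure_union_le _ _).trans (add_le_add hAle hBle))
  rw [measure_univ, ← ENNReal.ofReal_add (by norm_num) (by norm_num), ← ENNReal.ofReal_one,
    ENNReal.ofReal_le_ofReal_iff (by norm_num)] at h1
  norm_num at h1

end Pool.Agent.P.MP_4cda3b_an
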