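import Mathlib

/-!
# Distinct subset sums of well separated index sets

For a sequence `a` with `a (n+1) / a n ≥ 1 + 1 / log n` we cut the indices into dyadic blocks
`[2^j, 2^(j+1))`.  On block `j` the ratio is at least `1 + 1 / KK j`, and `ss j` steps multiply
`a` by at least `4 * KK j`.  Index sets whose points are `ss`-separated have distinct sums.
-/

set_option autoImplicit false

namespace Pool.Agent.P.MP_4cda3b_an

open Finset

/-- The dyadic block containing the index `n`. -/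
def blk (n : ℕ) : ℕ := Nat.log 2 n

/-- An upper bound for `log n` on the block `j`. -/
def KK (j : ℕ) : ℕ := 2 ^ (Nat.log 2 j + 1)

/-- The separation used on the block `j`. -/
def ss (j : ℕ) : ℕ := KK j * (Nat.log 2 j + 3)

/-- The growth hypothesis, in natural numbers, from the block `j0` on. -/
def Grow (a : ℕ → ℕ) (j0 : ℕ) : Prop :=
  ∀ n, 2 ^ j0 ≤ n → (KK (blk n) + 1) * a n ≤ KK (blk n) * a (n + 1)

/-- Admissible index sets. -/
def Adm (j0 : ℕ) (A : Finset ℕ) : Prop :=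
  (∀ n ∈ A, j0 ≤ blk n ∧ 2 ^ blk n + ss (blk n) ≤ n) ∧
    ∀ n ∈ A, ∀ m ∈ A, n < m → n + ss (blk m) ≤ m

lemma KK_pos (j : ℕ) : 0 < KK j := by unfold KK; positivity

lemma ss_pos (j : ℕ) : 0 < ss j := by
  unfold ss
  exact Nat.mul_pos (KK_pos j) (by omega)

lemma lt_KK (j : ℕ) : j < KK j := Nat.lt_pow_succ_log_self (by norm_num) j

lemma blk_eq {j n : ℕ} (h1 : 2 ^ j ≤ n) (h2 : n < 2 ^ (j + 1)) : blk n = j :=
  Nat.log_eq_of_pow_le_of_lt_pow h1 h2

lemma lt_pow_blk (n : ℕ) : n < 2 ^ (blk n + 1) := Nat.lt_pow_succ_log_self (by norm_num) n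

lemma blk_mono {m n : ℕ} (h : m ≤ n) : blk m ≤ blk n := Nat.log_mono_right h

lemma Adm.subset {j0 : ℕ} {A B : Finset ℕ} (hA : Adm j0 A) (h : B ⊆ A) : Adm j0 B :=
  ⟨fun n hn => hA.1 n (h hn), fun n hn m hm hlt => hA.2 n (h hn) m (h hm) hlt⟩

lemma Adm.pow_le {j0 : ℕ} {A : Finset ℕ} (hA : Adm j0 A) {n : ℕ} (hn : n ∈ A) : 2 ^ j0 ≤ n := by
  obtain ⟨h1, h2⟩ := hA.1 n hn
  have : 2 ^ j0 ≤ 2 ^ blk n := Nat.pow_le_pow_right (by norm_num) h1
  omega

variable {a : ℕ → ℕ} {j0 : ℕ}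

lemma Grow.le_succ (h : Grow a j0) {n : ℕ} (hn : 2 ^ j0 ≤ n) : a n ≤ a (n + 1) := by
  have h1 := h n hn
  have h2 := KK_pos (blk n)
  by_contra hc
  push Not at hc
  nlinarith

lemma Grow.mono (h : Grow a j0) {m n : ℕ} (hm : 2 ^ j0 ≤ m) (hmn : m ≤ n) : a m ≤ a n := by
  induction n, hmn using Nat.le_induction with
  | base => exact le_rfl
  | succ n hmn ih => exact ih.trans (h.le_succ (hm.trans hmn))

lemma Grow.pow_steps (h : Grow a j0) {j m : ℕ} (hj : j0 ≤ j) (hm : 2 ^ j ≤ m) (r : ℕ)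
    (hr : m + r ≤ 2 ^ (j + 1)) : (KK j + 1) ^ r * a m ≤ KK j ^ r * a (m + r) := by
  induction r with
  | zero => simp
  | succ r ih =>
    have ih' := ih (by omega)
    have hb : blk (m + r) = j := blk_eq (by omega) (by omega)
    have h0 : 2 ^ j0 ≤ m + r := by
      have : 2 ^ j0 ≤ 2 ^ j := Nat.pow_le_pow_right (by norm_num) hj
      omega
    have h1 := h (m + r) h0
    rw [hb] at h1
    calc (KK j + 1) ^ (r + 1) * a m = (KK j + 1) * ((KK j + 1) ^ r * a m) := by ring
      _ ≤ (KK j + 1) * (KK j ^ r * a (m + r)) := Nat.mul_le_mul_left _ ih'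
      _ = KK j ^ r * ((KK j + 1) * a (m + r)) := by ring
      _ ≤ KK j ^ r * (KK j * a (m + r + 1)) := Nat.mul_le_mul_left _ h1
      _ = KK j ^ (r + 1) * a (m + (r + 1)) := by rw [← add_assoc]; ring

lemma two_mul_pow_le (K : ℕ) (hK : 0 < K) : 2 * K ^ K ≤ (K + 1) ^ K := by
  have h : (K : ℝ) ^ K * (1 + K * (1 / K)) ≤ (K : ℝ) ^ K * (1 + 1 / K) ^ K := by
    apply mul_le_mul_of_nonneg_left _ (by positivity)
    apply one_add_mul_le_pow
    have : (0 : ℝ) ≤ 1 / K := by positivity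
    linarith
  have hK' : (K : ℝ) ≠ 0 := by positivity
  rw [← mul_pow] at h
  have e1 : (K : ℝ) * (1 + 1 / K) = K + 1 := by field_simp
  have e2 : (K : ℝ) * (1 / K) = 1 := by field_simp
  rw [e1, e2] at h
  have : (2 : ℝ) * K ^ K ≤ (K + 1) ^ K := by linarith
  exact_mod_cast this

lemma Grow.jump (h : Grow a j0) {j m : ℕ} (hj : j0 ≤ j) (hm : 2 ^ j ≤ m)
    (hr : m + ss j ≤ 2 ^ (j + 1)) : 4 * KK j * a m ≤ a (m + ss j) := by
  have h1 := h.pow_steps hj hm (ss j) hr
  have hK := KK_pos j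
  set l := Nat.log 2 j + 3 with hl
  have h2 : (2 * KK j ^ KK j) ^ l ≤ ((KK j + 1) ^ KK j) ^ l :=
    Nat.pow_le_pow_left (two_mul_pow_le _ hK) l
  have e1 : ss j = KK j * l := rfl
  rw [← pow_mul, mul_pow, ← pow_mul, ← e1] at h2
  have e2 : 2 ^ l = 4 * KK j := by
    rw [hl]; unfold KK; ring
  rw [e2] at h2
  have h3 : KK j ^ ss j * (4 * KK j * a m) ≤ KK j ^ ss j * a (m + ss j) := by
    calc KK j ^ ss j * (4 * KK j * a m) = (4 * KK j * KK j ^ ss j) * a m := by ring
      _ ≤ (KK j + 1) ^ ss j * a m := Nat.mul_le_mul_right _ h2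
      _ ≤ _ := h1
  exact Nat.le_of_mul_le_mul_left h3 (by positivity)

lemma Grow.sum_le (h : Grow a j0) (A : Finset ℕ) :
    Adm j0 A → ∀ n ∈ A, (∀ m ∈ A, m ≤ n) →
      2 * KK (blk n) * ∑ i ∈ A, a i ≤ (2 * KK (blk n) + 1) * a n := by
  induction A using Finset.induction_on_max with
  | empty => intro _ n hn; simp at hn
  | insert x S hx ih =>
    intro hA n hn hmax
    have hxS : x ∉ S := fun hh => lt_irrefl _ (hx x hh)
    have hnx : n = x := by
      have h1 : x ≤ n := hmax x (mem_insert_self _ _)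
      rcases mem_insert.1 hn with h2 | h2
      · exact h2
      · exact absurd (hx n h2) (by omega)
    subst hnx
    rw [sum_insert hxS]
    have key : 2 * KK (blk n) * ∑ i ∈ S, a i ≤ a n := by
      rcases S.eq_empty_or_nonempty with hS | hS
      · subst hS; simp
      · have hAS : Adm j0 S := hA.subset (subset_insert _ _)
        set p := S.max' hS with hp
        have hpS : p ∈ S := max'_mem S hS
        have h1 := ih hAS p hpS (fun m hm => le_max' S m hm)
        have hKp := KK_pos (blk p)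
        have h2 : ∑ i ∈ S, a i ≤ 2 * a p := by
          by_contra hc
          push Not at hc
          nlinarith
        have h3 := hA.2 p (mem_insert_of_mem hpS) n (mem_insert_self _ _) (hx p hpS)
        obtain ⟨h4, h5⟩ := hA.1 n (mem_insert_self _ _)
        have h6 := lt_pow_blk n
        have h7 : a p ≤ a (n - ss (blk n)) := h.mono (hAS.pow_le hpS) (by omega)
        have h8 := h.jump (m := n - ss (blk n)) h4 (by omega) (by omega)
        have e : n - ss (blk n) + ss (blk n) = n := by omega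
        rw [e] at h8
        calc 2 * KK (blk n) * ∑ i ∈ S, a i ≤ 2 * KK (blk n) * (2 * a p) :=
              Nat.mul_le_mul_left _ h2
          _ = 4 * KK (blk n) * a p := by ring
          _ ≤ 4 * KK (blk n) * a (n - ss (blk n)) := Nat.mul_le_mul_left _ h7
          _ ≤ a n := h8
    nlinarith

lemma Grow.sum_lt (h : Grow a j0) (hpos : ∀ n, 0 < a n) {A : Finset ℕ} (hA : Adm j0 A) {n : ℕ}
    (hn : ∀ m ∈ A, m < n) : ∑ i ∈ A, a i < a n := by
  rcases A.eq_empty_or_nonempty with hS | hS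
  · subst hS; simpa using hpos n
  · set p := A.max' hS with hp
    have hpS : p ∈ A := max'_mem A hS
    have h1 := h.sum_le A hA p hpS (fun m hm => le_max' A m hm)
    have h2 := h p (hA.pow_le hpS)
    have h3 : a (p + 1) ≤ a n := h.mono ((hA.pow_le hpS).trans (Nat.le_succ p)) (hn p hpS)
    have hK := KK_pos (blk p)
    have h4 := hpos p
    by_contra hc
    push Not at hc
    have h5 : KK (blk p) * a (p + 1) ≤ KK (blk p) * ∑ i ∈ A, a i :=
      Nat.mul_le_mul_left _ (h3.trans hc)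
    nlinarith

lemma Grow.sum_ne (h : Grow a j0) (hpos : ∀ n, 0 < a n) {A B : Finset ℕ}
    (hB : Adm j0 B) {n : ℕ} (hn : n ∈ A) (hlt : ∀ m ∈ B, m < n) :
    ∑ i ∈ A, a i ≠ ∑ i ∈ B, a i := by
  have h1 := h.sum_lt hpos hB hlt
  have h2 : a n ≤ ∑ i ∈ A, a i := single_le_sum (f := a) (fun i _ => Nat.zero_le _) hn
  omega

/-- Admissible index sets have distinct sums. -/
lemma Grow.sum_inj (h : Grow a j0) (hpos : ∀ n, 0 < a n) {A B : Finset ℕ} (hA : Adm j0 A)
    (hB : Adm j0 B) (hs : ∑ i ∈ A, a i = ∑ i ∈ B, a i) : A = B := by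
  by_contra hne
  have hs' : ∑ i ∈ A \ B, a i = ∑ i ∈ B \ A, a i := by
    have e1 := sum_sdiff (f := a) (inter_subset_left : A ∩ B ⊆ A)
    have e2 := sum_sdiff (f := a) (inter_subset_right : A ∩ B ⊆ B)
    rw [sdiff_inter_self_left] at e1
    rw [sdiff_inter_self_right] at e2
    omega
  have hne' : ((A \ B) ∪ (B \ A)).Nonempty := by
    rw [nonempty_iff_ne_empty]
    intro he
    rw [union_eq_empty, sdiff_eq_empty_iff_subset, sdiff_eq_empty_iff_subset] at he
    exact hne (Subset.antisymm he.1 he.2)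
  set n := ((A \ B) ∪ (B \ A)).max' hne' with hn
  have hnm : n ∈ (A \ B) ∪ (B \ A) := max'_mem _ hne'
  have hle : ∀ m ∈ (A \ B) ∪ (B \ A), m ≤ n := fun m hm => le_max' _ m hm
  rcases mem_union.1 hnm with h1 | h1
  · refine h.sum_ne hpos (hB.subset sdiff_subset) h1 (fun m hm => ?_) hs'
    have h2 := hle m (mem_union_right _ hm)
    have h3 : m ≠ n := by
      rintro rfl
      exact (mem_sdiff.1 hm).2 (mem_sdiff.1 h1).1
    omega
  · refine h.sum_ne hpos (hA.subset sdiff_subset) h1 (fun m hm => ?_) hs'.symm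
    have h2 := hle m (mem_union_left _ hm)
    have h3 : m ≠ n := by
      rintro rfl
      exact (mem_sdiff.1 hm).2 (mem_sdiff.1 h1).1
    omega

end Pool.Agent.P.MP_4cda3b_an
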